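import Pool.Agent.W544.PG.Defs4
import Pool.Agent.W655.PG.Desc

/-!
# PG3-DE2: the complex commutant of the conjugates of `x` is spanned by rational matrices
-/

open Matrix Finset Module

namespace Pool.Agent.W696.PG

open Pool.Agent.W544.PG

/-- the support of a matrix -/
noncomputable def sp {n : ℕ} (v : Matrix (Fin n) (Fin n) ℂ) : Finset (Fin n × Fin n) :=
  Finset.univ.filter (fun p : Fin n × Fin n => v p.1 p.2 ≠ 0)

theorem mem_sp {n : ℕ} {v : Matrix (Fin n) (Fin n) ℂ} {p : Fin n × Fin n} :
    p ∈ sp v ↔ v p.1 p.2 ≠ 0 := by simp [sp]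

theorem de2 : S_de2 := by
  intro n T
  -- stability under the automorphisms
  have hmap : ∀ w : Matrix (Fin n) (Fin n) ℂ, (∀ σ : ℂ ≃+* ℂ, w * T.x.map σ = T.x.map σ * w) →
      ∀ τ σ : ℂ ≃+* ℂ, w.map τ * T.x.map σ = T.x.map σ * w.map τ := by
    intro w hw τ σ
    have h1 := hw (σ.trans τ.symm)
    have h2 : (T.x.map (σ.trans τ.symm)).map τ = T.x.map σ := by
      ext a b
      simp
    have h3 := congrArg (fun M : Matrix (Fin n) (Fin n) ℂ => M.map τ) h1
    simp only [Matrix.map_mul] at h3
    rw [h2] at h3
    exact h3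
  have key : ∀ (k : ℕ) (C : Matrix (Fin n) (Fin n) ℂ),
      (∀ σ : ℂ ≃+* ℂ, C * T.x.map σ = T.x.map σ * C) → (sp C).card = k →
      C ∈ Submodule.span ℂ
        {D | ∃ P : Matrix (Fin n) (Fin n) ℚ, D = mC P ∧ mC P * T.x = T.x * mC P} := by
    intro k
    induction k using Nat.strong_induction_on with
    | _ k ih =>
      intro C hC hk
      by_cases hC0 : C = 0
      · rw [hC0]; exact Submodule.zero_mem _
      -- an element of minimal support
      have hex : ∃ m, ∃ w : Matrix (Fin n) (Fin n) ℂ,
          (∀ σ : ℂ ≃+* ℂ, w * T.x.map σ = T.x.map σ * w) ∧ w ≠ 0 ∧ sp w ⊆ sp C ∧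
          (sp w).card = m := ⟨_, C, hC, hC0, subset_rfl, rfl⟩
      classical
      obtain ⟨v, hv, hv0, hvC, hvm⟩ := Nat.find_spec hex
      have hmin : ∀ u : Matrix (Fin n) (Fin n) ℂ,
          (∀ σ : ℂ ≃+* ℂ, u * T.x.map σ = T.x.map σ * u) → sp u ⊆ sp C →
          (sp u).card < (sp v).card → u = 0 := by
        intro u hu huC hlt
        by_contra hu0
        rw [hvm] at hlt
        exact Nat.find_min hex hlt ⟨u, hu, hu0, huC, rfl⟩
      have hex2 : ∃ i j, v i j ≠ 0 := by
        by_contra hcon
        push Not at hcon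
        exact hv0 (by ext i j; exact hcon i j)
      obtain ⟨i, j, hij⟩ := hex2
      set w : Matrix (Fin n) (Fin n) ℂ := (v i j)⁻¹ • v with hw
      have hwv : ∀ σ : ℂ ≃+* ℂ, w * T.x.map σ = T.x.map σ * w := by
        intro σ
        rw [hw, smul_mul_assoc, mul_smul_comm, hv σ]
      have hwij : w i j = 1 := by simp [hw, hij]
      have hspw : sp w = sp v := by
        ext p
        rw [mem_sp, mem_sp]
        simp [hw, hij]
      have hfix : ∀ τ : ℂ ≃+* ℂ, w.map τ = w := by
        intro τ
        have hsub : sp (w.map τ - w) ⊆ sp v := by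
          intro p hp
          rw [mem_sp] at hp
          rw [← hspw, mem_sp]
          intro h0
          apply hp
          simp [h0]
        have hu := hmin (w.map τ - w) ?_ (hsub.trans hvC) ?_
        · exact sub_eq_zero.1 hu
        · intro σ
          rw [sub_mul, mul_sub, hmap w hwv τ σ, hwv]
        · apply Finset.card_lt_card
          rw [Finset.ssubset_iff_of_subset hsub]
          refine ⟨(i, j), mem_sp.2 hij, ?_⟩
          rw [mem_sp]
          simp [hwij]
      have hrat : ∀ a b, ∃ q : ℚ, (q : ℂ) = w a b := by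
        intro a b
        refine Pool.Agent.W655.PG.rat_of_fixed fun τ => ?_
        have := congrFun (congrFun (hfix τ) a) b
        simpa using this
      choose P hP using hrat
      have hwP : mC (Matrix.of P) = w := by
        ext a b
        exact hP a b
      have hcomm : mC (Matrix.of P) * T.x = T.x * mC (Matrix.of P) := by
        have h1 := hwv (RingEquiv.refl ℂ)
        have h2 : T.x.map (RingEquiv.refl ℂ) = T.x := by
          ext a b; simp
        rw [h2] at h1
        rw [hwP]
        exact h1
      have hwS : w ∈ Submodule.span ℂ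
          {D | ∃ P : Matrix (Fin n) (Fin n) ℚ, D = mC P ∧ mC P * T.x = T.x * mC P} :=
        Submodule.subset_span ⟨Matrix.of P, hwP.symm, hcomm⟩
      have hsub2 : sp (C - C i j • w) ⊆ sp C := by
        intro p hp
        rw [mem_sp] at hp ⊢
        intro h0
        apply hp
        have h1 : w p.1 p.2 = 0 := by
          by_contra h2
          have h3 : p ∈ sp v := by rw [← hspw]; exact mem_sp.2 h2
          exact mem_sp.1 (hvC h3) h0
        simp [h0, h1]
      have hrec := ih (sp (C - C i j • w)).card ?_ (C - C i j • w) ?_ rfl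
      · have := Submodule.add_mem _ hrec (Submodule.smul_mem _ (C i j) hwS)
        rwa [sub_add_cancel] at this
      · rw [← hk]
        apply Finset.card_lt_card
        rw [Finset.ssubset_iff_of_subset hsub2]
        refine ⟨(i, j), hvC (mem_sp.2 hij), ?_⟩
        rw [mem_sp]
        simp [hwij]
      · intro σ
        rw [sub_mul, mul_sub, hC, smul_mul_assoc, mul_smul_comm, hwv]
  intro C hC
  exact key _ C hC rfl

end Pool.Agent.W696.PG
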